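import Pool.Agent.H964.DP.Stm2
import Pool.Agent.H549.DP.LOWP

/-! Task CSE of project DP (helper964): from the block estimate to the free energy. -/

set_option autoImplicit false

open MeasureTheory ProbabilityTheory Filter Finset

namespace Pool.Agent.H34.DP

open Pool.Agent.H964.DP

/-! ### the numbers `α` -/

/-- sup norm -/
noncomputable def sn (c : V) : ℝ := max |(c.1 : ℝ)| |(c.2 : ℝ)|

theorem sn_nonneg (c : V) : 0 ≤ sn c := le_max_of_le_left (abs_nonneg _)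

/-- the far part of `α` -/
noncomputable def far (c : V) : ℝ := 3 * Real.exp (-((sn c - 1) ^ 2 / 4))

theorem far_pos (c : V) : 0 < far c := by
  unfold far
  have := Real.exp_pos (-((sn c - 1) ^ 2 / 4))
  linarith

/-- `α` -/
noncomputable def al (L : ℝ) (c : V) : ℝ := if sn c ≤ L then 2 / L ^ 3 else far c

theorem sum_abs : Summable fun n : ℤ => Real.exp (-(|(n : ℝ)| / 32)) := by
  have h1 : Summable fun n : ℕ => Real.exp ((n : ℝ) * (-(1 / 32))) :=
    Real.summable_exp_nat_mul_iff.2 (by norm_num)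
  have h2 : ∀ n : ℕ, Real.exp ((n : ℝ) * (-(1 / 32))) = Real.exp (-(|(((n : ℕ) : ℤ) : ℝ)| / 32)) := by
    intro n
    have h3 : |(((n : ℕ) : ℤ) : ℝ)| = n := by
      rw [Int.cast_natCast, abs_of_nonneg (Nat.cast_nonneg n)]
    rw [h3]
    congr 1
    ring
  have h3 : ∀ n : ℕ, Real.exp ((n : ℝ) * (-(1 / 32))) = Real.exp (-(|((-((n : ℕ) : ℤ) : ℤ) : ℝ)| / 32)) := by
    intro n
    have h3 : |((-((n : ℕ) : ℤ) : ℤ) : ℝ)| = n := by
      rw [Int.cast_neg, abs_neg, Int.cast_natCast, abs_of_nonneg (Nat.cast_nonneg n)]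
    rw [h3]
    congr 1
    ring
  apply Summable.of_nat_of_neg
  · exact h1.congr h2
  · exact h1.congr h3

theorem far_le (c : V) : far c ≤ 3 * Real.exp 1 *
    (Real.exp (-(|(c.1 : ℝ)| / 32)) * Real.exp (-(|(c.2 : ℝ)| / 32))) := by
  unfold far
  rw [mul_assoc, ← Real.exp_add, ← Real.exp_add]
  refine mul_le_mul_of_nonneg_left (Real.exp_le_exp.2 ?_) (by norm_num)
  have h1 : |(c.1 : ℝ)| ≤ sn c := le_max_left _ _
  have h2 : |(c.2 : ℝ)| ≤ sn c := le_max_right _ _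
  nlinarith [sq_nonneg (sn c - 9 / 8)]

theorem sum_far0 : Summable far := by
  have h1 : Summable fun c : V => 3 * Real.exp 1 *
      (Real.exp (-(|(c.1 : ℝ)| / 32)) * Real.exp (-(|(c.2 : ℝ)| / 32))) :=
    (sum_abs.mul_of_nonneg sum_abs (fun _ => (Real.exp_pos _).le)
      (fun _ => (Real.exp_pos _).le)).mul_left _
  exact h1.of_nonneg_of_le (fun c => (far_pos c).le) far_le

theorem sum_far : ∃ L₁ : ℝ, ∀ F : Finset V, (∀ c ∈ F, L₁ < sn c) → ∑ c ∈ F, far c ≤ 1 / 4 := by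
  obtain ⟨s, hs⟩ := summable_iff_vanishing_norm.1 sum_far0 (1 / 4) (by norm_num)
  refine ⟨∑ c ∈ s, sn c, fun F hF => ?_⟩
  have h1 : Disjoint F s := by
    rw [Finset.disjoint_left]
    intro c hc hcs
    have h2 := hF c hc
    have h3 : sn c ≤ ∑ c ∈ s, sn c := Finset.single_le_sum (fun c _ => sn_nonneg c) hcs
    linarith
  have h2 := hs F h1
  rw [Real.norm_eq_abs] at h2
  exact ((le_abs_self _).trans h2.le)

theorem card_near {L : ℝ} (hL : 1 ≤ L) (F : Finset V) (hF : ∀ c ∈ F, sn c ≤ L) :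
    (F.card : ℝ) ≤ (2 * L + 1) ^ 2 := by
  have h1 : F ⊆ (Finset.Icc (-(⌊L⌋₊ : ℤ)) ⌊L⌋₊) ×ˢ (Finset.Icc (-(⌊L⌋₊ : ℤ)) ⌊L⌋₊) := by
    intro c hc
    have h2 := hF c hc
    have key : ∀ a : ℤ, |(a : ℝ)| ≤ L → a ∈ Finset.Icc (-(⌊L⌋₊ : ℤ)) ⌊L⌋₊ := by
      intro a ha
      have h3 : a.natAbs ≤ ⌊L⌋₊ := by
        apply Nat.le_floor
        have h4 : ((a.natAbs : ℕ) : ℝ) = |(a : ℝ)| := by
          rw [Nat.cast_natAbs, Int.cast_abs]
        rw [h4]
        exact ha
      rw [Finset.mem_Icc]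
      omega
    rw [Finset.mem_product]
    exact ⟨key _ ((le_max_left _ _).trans h2), key _ ((le_max_right _ _).trans h2)⟩
  have h2 := Finset.card_le_card h1
  rw [Finset.card_product, Int.card_Icc] at h2
  have h3 : ((⌊L⌋₊ : ℤ) + 1 - -(⌊L⌋₊ : ℤ)).toNat = 2 * ⌊L⌋₊ + 1 := by omega
  rw [h3] at h2
  have h4 : ((⌊L⌋₊ : ℕ) : ℝ) ≤ L := Nat.floor_le (by linarith)
  have h5 : (F.card : ℝ) ≤ (2 * (⌊L⌋₊ : ℝ) + 1) * (2 * (⌊L⌋₊ : ℝ) + 1) := by exact_mod_cast h2
  have h6 : (0 : ℝ) ≤ (⌊L⌋₊ : ℝ) := Nat.cast_nonneg _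
  nlinarith

theorem sum_al {L L₁ : ℝ} (hL : 72 ≤ L) (h1L : L₁ ≤ L)
    (h : ∀ F : Finset V, (∀ c ∈ F, L₁ < sn c) → ∑ c ∈ F, far c ≤ 1 / 4) (F : Finset V) :
    ∑ c ∈ F, al L c ≤ 1 / 2 := by
  classical
  rw [← Finset.sum_filter_add_sum_filter_not F (fun c => sn c ≤ L)]
  have h1 : ∑ c ∈ F.filter (fun c => sn c ≤ L), al L c ≤ 1 / 4 := by
    have h2 : ∑ c ∈ F.filter (fun c => sn c ≤ L), al L c =
        ∑ _c ∈ F.filter (fun c => sn c ≤ L), 2 / L ^ 3 := by
      refine Finset.sum_congr rfl fun c hc => ?_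
      unfold al
      rw [if_pos (Finset.mem_filter.1 hc).2]
    rw [h2, Finset.sum_const, nsmul_eq_mul]
    have h3 := card_near (by linarith : 1 ≤ L) (F.filter (fun c => sn c ≤ L))
      (fun c hc => (Finset.mem_filter.1 hc).2)
    have h4 : (2 * L + 1) ^ 2 ≤ 9 * L ^ 2 := by nlinarith
    calc _ ≤ (9 * L ^ 2) * (2 / L ^ 3) :=
          mul_le_mul_of_nonneg_right (h3.trans h4) (by positivity)
      _ = 18 / L := by field_simp; ring
      _ ≤ 1 / 4 := by
          rw [div_le_div_iff₀ (by linarith) (by norm_num)]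
          linarith
  have h2 : ∑ c ∈ F.filter (fun c => ¬ sn c ≤ L), al L c ≤ 1 / 4 := by
    have h2 : ∑ c ∈ F.filter (fun c => ¬ sn c ≤ L), al L c =
        ∑ c ∈ F.filter (fun c => ¬ sn c ≤ L), far c := by
      refine Finset.sum_congr rfl fun c hc => ?_
      unfold al
      rw [if_neg (Finset.mem_filter.1 hc).2]
    rw [h2]
    apply h
    intro c hc
    have := (Finset.mem_filter.1 hc).2
    push Not at this
    linarith
  linarith

/-! ### the walk -/

theorem PT_prob {γ : Measure (V → ℝ)} {h : V → ℝ} (hg : GS γ h) (β : ℝ) {n : ℕ} (z : V)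
    (τ : Fin n → Fin 4) : IsProbabilityMeasure (PT γ β z τ) := by
  have := hg.prob
  have hp : ∀ k, IsProbabilityMeasure (if k < n then tl γ β (z + pos τ (k + 1)) else γ) := by
    intro k
    split_ifs
    · refine ⟨?_⟩
      obtain ⟨h1, h2⟩ := Pool.Agent.H549.DP.one_exp γ h hg β (z + pos τ (k + 1))
      unfold tl
      rw [withDensity_apply _ MeasurableSet.univ, setLIntegral_univ,
        ← ofReal_integral_eq_lintegral_ofReal h1 (Eventually.of_forall fun x => (Real.exp_pos _).le),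
        h2, ENNReal.ofReal_one]
    · infer_instance
  unfold PT
  infer_instance

theorem far_cell {m : ℕ} (hm : 1 ≤ m) {z y c : V} (hz : cel m z = 0) (hc : cel m (z + y) = c)
    : Out ((sn c - 1) * m) y := by
  have hm' : (0 : ℤ) < m := by exact_mod_cast hm
  have key : ∀ a b d : ℤ, a / (m : ℤ) = 0 → (a + b) / (m : ℤ) = d →
      (|(d : ℝ)| - 1) * m ≤ |(b : ℝ)| := by
    intro a b d ha hd
    have h1 : 0 ≤ a := by
      have := Int.ediv_mul_le a hm'.ne'
      rw [ha] at this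
      linarith
    have h2 : a < m := by
      have := Int.lt_ediv_add_one_mul_self a hm'
      rw [ha] at this
      linarith
    have h3 : d * m ≤ a + b := by
      have := Int.ediv_mul_le (a + b) hm'.ne'
      rwa [hd] at this
    have h4 : a + b < (d + 1) * m := by
      have := Int.lt_ediv_add_one_mul_self (a + b) hm'
      rwa [hd] at this
    have h5 : (d - 1) * m ≤ b := by nlinarith
    have h6 : b ≤ (d + 1) * m := by nlinarith
    have h5' : ((d : ℝ) - 1) * m ≤ b := by exact_mod_cast h5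
    have h6' : (b : ℝ) ≤ (d + 1) * m := by exact_mod_cast h6
    have h7 : (0 : ℝ) < m := by exact_mod_cast hm'
    rcases le_total 0 (d : ℝ) with hd0 | hd0
    · rw [abs_of_nonneg hd0]
      exact h5'.trans (le_abs_self _)
    · rw [abs_of_nonpos hd0]
      have : -(b : ℝ) ≤ |(b : ℝ)| := neg_le_abs _
      nlinarith
  have hz1 : z.1 / (m : ℤ) = 0 := congrArg Prod.fst hz
  have hz2 : z.2 / (m : ℤ) = 0 := congrArg Prod.snd hz
  have hc1 : (z.1 + y.1) / (m : ℤ) = c.1 := congrArg Prod.fst hc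
  have hc2 : (z.2 + y.2) / (m : ℤ) = c.2 := congrArg Prod.snd hc
  have k1 := key _ _ _ hz1 hc1
  have k2 := key _ _ _ hz2 hc2
  unfold Out sn
  rcases le_total |(c.1 : ℝ)| |(c.2 : ℝ)| with h | h
  · rw [max_eq_right h]
    exact Or.inr k2
  · rw [max_eq_left h]
    exact Or.inl k1

theorem far_prob {l m : ℕ} (hl : 1 ≤ l) (hm : 1 ≤ m) (hlm : (l : ℝ) ≤ (m : ℝ) ^ 2) {z c : V}
    (hz : cel m z = 0) (hc : 1 ≤ sn c) :
    (∑ τ : Fin l → Fin 4, (if cel m (z + pos τ l) = c then (1 : ℝ) else 0)) / 4 ^ l ≤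
      4 * Real.exp (-((sn c - 1) ^ 2 / 2)) := by
  classical
  have hl' : (0 : ℝ) < l := by exact_mod_cast hl
  have hm' : (0 : ℝ) < m := by exact_mod_cast hm
  have h1 := tail_incr (θ := (sn c - 1) * m / l) (r := (sn c - 1) * m)
    (div_nonneg (mul_nonneg (by linarith) hm'.le) hl'.le) 0 l l (by omega)
  have h2 : (∑ τ : Fin l → Fin 4, (if cel m (z + pos τ l) = c then (1 : ℝ) else 0)) / 4 ^ l ≤
      Ep l (fun τ => if Out ((sn c - 1) * m) (pos τ (0 + l) - pos τ 0) then 1 else 0) := by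
    show Ep l (fun τ => if cel m (z + pos τ l) = c then (1 : ℝ) else 0) ≤ _
    apply Ep_mono
    intro τ
    split_ifs with h3 h4 h4
    · exact le_rfl
    · exfalso
      apply h4
      rw [zero_add, pos_zero, sub_zero]
      exact far_cell hm hz h3
    · exact zero_le_one
    · exact le_rfl
  refine (h2.trans h1).trans (mul_le_mul_of_nonneg_left (Real.exp_le_exp.2 ?_) (by norm_num))
  have h3 : -((sn c - 1) * m / l * ((sn c - 1) * m)) + (l : ℝ) * (((sn c - 1) * m / l) ^ 2 / 2) =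
      -((sn c - 1) ^ 2 / 2 * (m ^ 2 / l)) := by
    field_simp
    ring
  rw [h3]
  have h4 : 1 ≤ (m : ℝ) ^ 2 / l := by
    rw [le_div_iff₀ hl']
    linarith
  have h5 : 0 ≤ (sn c - 1) ^ 2 / 2 := by positivity
  nlinarith

/-! ### the hypothesis of COARSE -/

theorem hyp {γ : Measure (V → ℝ)} {h : V → ℝ} (hg : GS γ h) (hS : S_SIZE) {β : ℝ} {l m : ℕ}
    (hl : 1 ≤ l) (hm : 1 ≤ m) (hlm : (l : ℝ) ≤ (m : ℝ) ^ 2) {A : Set (ℕ → V → ℝ)}
    (hA : MeasurableSet A) {L : ℝ} (hL : 1 ≤ L)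
    (hW : ∀ z : V, cel m z = 0 →
      ∫ w, Aᶜ.indicator (fun _ => (1 : ℝ)) w * W β l w z ∂(PP γ) ≤ (L ^ 6)⁻¹) (c z : V)
    (hz : cel m z = 0) :
    2 * ∫ w, A.indicator (fun _ => (L ^ 6)⁻¹) w *
        K l (wt β w) (fun y => if cel m y = c then 1 else 0) z +
      Aᶜ.indicator (fun _ => (1 : ℝ)) w *
        K l (wt β w) (fun y => if cel m y = c then 1 else 0) z ∂(PP γ) ≤ al L c ^ 2 := by
  have := hg.prob
  have hPP : IsProbabilityMeasure (PP γ) := by unfold PP; infer_instance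
  have hκ0 : 0 < (L ^ 6)⁻¹ := by positivity
  have hκ1 : (L ^ 6)⁻¹ ≤ 1 := inv_le_one_of_one_le₀ (one_le_pow₀ hL)
  obtain ⟨f, hf⟩ : ∃ f : V → ℝ, f = fun y => if cel m y = c then 1 else 0 := ⟨_, rfl⟩
  have hf0 : ∀ y, 0 ≤ f y := by
    intro y
    rw [hf]
    show 0 ≤ (if cel m y = c then (1 : ℝ) else 0)
    split_ifs <;> norm_num
  have hf1 : ∀ y, f y ≤ 1 := by
    intro y
    rw [hf]
    show (if cel m y = c then (1 : ℝ) else 0) ≤ 1
    split_ifs <;> norm_num
  rw [← hf]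
  have hv : ∀ (w : ℕ → V → ℝ) (k : ℕ) (y : V), 0 ≤ wt β w k y := fun w k y => (Real.exp_pos _).le
  have hK0 : ∀ w : ℕ → V → ℝ, 0 ≤ K l (wt β w) f z := fun w => K_nonneg hf0 l _ (hv w) z
  have hKW : ∀ w : ℕ → V → ℝ, K l (wt β w) f z ≤ W β l w z := fun w => K_mono hf1 l _ (hv w) z
  have hW0 : ∀ w : ℕ → V → ℝ, 0 ≤ W β l w z := fun w => K_nonneg (fun _ => zero_le_one) l _ (hv w) z
  have hiA : ∀ w, 0 ≤ A.indicator (fun _ => (L ^ 6)⁻¹) w ∧
      A.indicator (fun _ => (L ^ 6)⁻¹) w ≤ (L ^ 6)⁻¹ := by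
    intro w
    by_cases hw : w ∈ A
    · rw [Set.indicator_of_mem hw]; exact ⟨hκ0.le, le_rfl⟩
    · rw [Set.indicator_of_notMem hw]; exact ⟨le_rfl, hκ0.le⟩
  have hiB : ∀ w, 0 ≤ Aᶜ.indicator (fun _ => (1 : ℝ)) w ∧ Aᶜ.indicator (fun _ => (1 : ℝ)) w ≤ 1 := by
    intro w
    by_cases hw : w ∈ Aᶜ
    · rw [Set.indicator_of_mem hw]; exact ⟨zero_le_one, le_rfl⟩
    · rw [Set.indicator_of_notMem hw]; exact ⟨le_rfl, zero_le_one⟩
  have mA : Measurable (A.indicator (fun _ => (L ^ 6)⁻¹)) := measurable_const.indicator hA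
  have mB : Measurable (Aᶜ.indicator (fun _ : ℕ → V → ℝ => (1 : ℝ))) :=
    measurable_const.indicator hA.compl
  have hSg : ∀ (g : V → ℝ) (F : (ℕ → V → ℝ) → ℝ), Measurable F → (∃ M : ℝ, ∀ w, |F w| ≤ M) →
      Integrable (fun w => F w * K l (wt β w) g z) (PP γ) := fun g F hF hM =>
    (hS.2 γ h hg β l z g F hF hM).1
  have bA : ∃ M : ℝ, ∀ w, |A.indicator (fun _ => (L ^ 6)⁻¹) w| ≤ M :=
    ⟨(L ^ 6)⁻¹, fun w => by rw [abs_of_nonneg (hiA w).1]; exact (hiA w).2⟩
  have bB : ∃ M : ℝ, ∀ w, |Aᶜ.indicator (fun _ : ℕ → V → ℝ => (1 : ℝ)) w| ≤ M :=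
    ⟨1, fun w => by rw [abs_of_nonneg (hiB w).1]; exact (hiB w).2⟩
  have b1 : ∃ M : ℝ, ∀ w : ℕ → V → ℝ, |(fun _ : ℕ → V → ℝ => (1 : ℝ)) w| ≤ M :=
    ⟨1, fun w => by norm_num⟩
  have iKA := hSg f _ mA bA
  have iKB := hSg f _ mB bB
  have iWB : Integrable (fun w => Aᶜ.indicator (fun _ => (1 : ℝ)) w * W β l w z) (PP γ) :=
    hSg (fun _ => 1) _ mB bB
  obtain ⟨iW, eW⟩ := Pool.Agent.H549.DP.W_int γ h hg β l z
  have iK : Integrable (fun w => K l (wt β w) f z) (PP γ) := by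
    have := hSg f (fun _ => 1) measurable_const b1
    simpa only [one_mul] using this
  unfold al
  by_cases hc : sn c ≤ L
  · rw [if_pos hc]
    have h1 : ∫ w, A.indicator (fun _ => (L ^ 6)⁻¹) w * K l (wt β w) f z +
        Aᶜ.indicator (fun _ => (1 : ℝ)) w * K l (wt β w) f z ∂(PP γ) ≤
        ∫ w, (L ^ 6)⁻¹ * W β l w z + Aᶜ.indicator (fun _ => (1 : ℝ)) w * W β l w z ∂(PP γ) := by
      apply integral_mono (iKA.add iKB) ((iW.const_mul _).add iWB)
      intro w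
      show A.indicator (fun _ => (L ^ 6)⁻¹) w * K l (wt β w) f z +
        Aᶜ.indicator (fun _ => (1 : ℝ)) w * K l (wt β w) f z ≤
        (L ^ 6)⁻¹ * W β l w z + Aᶜ.indicator (fun _ => (1 : ℝ)) w * W β l w z
      refine add_le_add ?_ (mul_le_mul_of_nonneg_left (hKW w) (hiB w).1)
      exact mul_le_mul (hiA w).2 (hKW w) (hK0 w) hκ0.le
    rw [integral_add (iW.const_mul _) iWB, integral_const_mul, eW, mul_one] at h1
    have h2 := hW z hz
    have h3 : (2 / L ^ 3) ^ 2 = 4 * (L ^ 6)⁻¹ := by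
      field_simp
      ring
    rw [h3]
    linarith
  · rw [if_neg hc]
    push Not at hc
    have h1 : ∫ w, A.indicator (fun _ => (L ^ 6)⁻¹) w * K l (wt β w) f z +
        Aᶜ.indicator (fun _ => (1 : ℝ)) w * K l (wt β w) f z ∂(PP γ) ≤
        ∫ w, K l (wt β w) f z ∂(PP γ) := by
      apply integral_mono (iKA.add iKB) iK
      intro w
      show A.indicator (fun _ => (L ^ 6)⁻¹) w * K l (wt β w) f z +
        Aᶜ.indicator (fun _ => (1 : ℝ)) w * K l (wt β w) f z ≤ K l (wt β w) f z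
      rw [← add_mul]
      have h2 : A.indicator (fun _ => (L ^ 6)⁻¹) w + Aᶜ.indicator (fun _ => (1 : ℝ)) w ≤ 1 := by
        by_cases hw : w ∈ A
        · have hw' : w ∉ Aᶜ := fun h => h hw
          rw [Set.indicator_of_mem hw, Set.indicator_of_notMem hw', add_zero]
          exact hκ1
        · have hw' : w ∈ Aᶜ := hw
          rw [Set.indicator_of_notMem hw, Set.indicator_of_mem hw', zero_add]
      calc _ ≤ 1 * K l (wt β w) f z := mul_le_mul_of_nonneg_right h2 (hK0 w)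
        _ = _ := one_mul _
    have h2 : ∫ w, K l (wt β w) f z ∂(PP γ) =
        (∑ τ : Fin l → Fin 4, (if cel m (z + pos τ l) = c then (1 : ℝ) else 0)) / 4 ^ l := by
      have h3 := (hS.2 γ h hg β l z f (fun _ => 1) measurable_const b1).2
      simp only [one_mul] at h3
      rw [h3]
      congr 1
      refine Finset.sum_congr rfl fun τ _ => ?_
      have := PT_prob hg β z τ
      rw [integral_const, probReal_univ, one_smul, mul_one, hf]
    have h3 := far_prob hl hm hlm hz (hL.trans hc.le)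
    have h4 : far c ^ 2 = 9 * Real.exp (-((sn c - 1) ^ 2 / 2)) := by
      unfold far
      rw [mul_pow, ← Real.exp_nat_mul]
      norm_num
      ring
    rw [h4]
    rw [h2] at h1
    have h5 := Real.exp_pos (-((sn c - 1) ^ 2 / 2))
    linarith

/-! ### from the square root to the free energy -/

theorem bc {γ : Measure (V → ℝ)} {h : V → ℝ} (hg : GS γ h) {β : ℝ} {l : ℕ} (hl : 1 ≤ l)
    (hE : ∀ k : ℕ, ∫ w, √(W β (k * l) w 0) ∂(PP γ) ≤ (1 / 2 : ℝ) ^ k) {p : ℝ}
    (hp : ∀ᵐ w ∂(PP γ), Tendsto (fun n : ℕ => Real.log (W β n w 0) / n) atTop (nhds p)) :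
    p ≤ -(1 / (l : ℝ)) := by
  have := hg.prob
  have hPP : IsProbabilityMeasure (PP γ) := by unfold PP; infer_instance
  have hl' : (0 : ℝ) < l := by exact_mod_cast hl
  -- the exceptional events
  have h1 : ∀ k : ℕ, (PP γ).real {w | Real.exp (-(k : ℝ) / 2) ≤ √(W β (k * l) w 0)} ≤
      (Real.exp (1 / 2) / 2) ^ k := by
    intro k
    have hm : Measurable fun w : ℕ → V → ℝ => √(W β (k * l) w 0) :=
      (Pool.Agent.H549.DP.W_meas β (k * l) 0).sqrt
    obtain ⟨iW, eW⟩ := Pool.Agent.H549.DP.W_int γ h hg β (k * l) 0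
    have hi : Integrable (fun w : ℕ → V → ℝ => √(W β (k * l) w 0)) (PP γ) := by
      refine Integrable.mono' (iW.add (integrable_const 1)) hm.aestronglyMeasurable
        (Eventually.of_forall fun w => ?_)
      have h2 : 0 ≤ W β (k * l) w 0 := (Pool.Agent.H549.DP.W_pos β (k * l) w 0).le
      have h3 : √(W β (k * l) w 0) ≤ W β (k * l) w 0 + 1 := by
        rw [Real.sqrt_le_left (by linarith)]
        nlinarith
      show ‖√(W β (k * l) w 0)‖ ≤ W β (k * l) w 0 + 1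
      rw [Real.norm_of_nonneg (Real.sqrt_nonneg _)]
      exact h3
    have h2 := mul_meas_ge_le_integral_of_nonneg
      (Eventually.of_forall fun w => Real.sqrt_nonneg (W β (k * l) w 0)) hi (Real.exp (-(k : ℝ) / 2))
    have h3 := h2.trans (hE k)
    have h4 : Real.exp (-(k : ℝ) / 2) * (Real.exp (1 / 2) / 2) ^ k = (1 / 2 : ℝ) ^ k := by
      rw [div_pow, ← Real.exp_nat_mul, ← mul_div_assoc, ← Real.exp_add]
      have : -(k : ℝ) / 2 + (k : ℝ) * (1 / 2) = 0 := by ring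
      rw [this, Real.exp_zero, div_pow, one_pow]
    rw [← h4] at h3
    exact le_of_mul_le_mul_left h3 (Real.exp_pos _)
  have h2 : Real.exp (1 / 2) / 2 < 1 := by
    have h3 : Real.exp (1 / 2) * Real.exp (1 / 2) = Real.exp 1 := by
      rw [← Real.exp_add]
      norm_num
    have h4 := Real.exp_one_lt_d9
    have h5 := Real.exp_pos (1 / 2 : ℝ)
    by_contra hc
    push Not at hc
    have h6 : 2 ≤ Real.exp (1 / 2) := by linarith
    nlinarith
  have h3 : ∑' k : ℕ, (PP γ) {w | Real.exp (-(k : ℝ) / 2) ≤ √(W β (k * l) w 0)} ≠ ⊤ := by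
    have h4 : ∀ k : ℕ, (PP γ) {w | Real.exp (-(k : ℝ) / 2) ≤ √(W β (k * l) w 0)} ≤
        ENNReal.ofReal ((Real.exp (1 / 2) / 2) ^ k) := by
      intro k
      rw [← ENNReal.ofReal_toReal (measure_ne_top (PP γ) _)]
      exact ENNReal.ofReal_le_ofReal (h1 k)
    have h5 : ∑' k : ℕ, ENNReal.ofReal ((Real.exp (1 / 2) / 2) ^ k) ≠ ⊤ := by
      rw [← ENNReal.ofReal_tsum_of_nonneg (fun k => by positivity)
        (summable_geometric_of_lt_one (by positivity) h2)]
      exact ENNReal.ofReal_ne_top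
    exact ne_top_of_le_ne_top h5 (ENNReal.tsum_le_tsum h4)
  have h4 := ae_eventually_notMem h3
  obtain ⟨w, hw1, hw2⟩ := (hp.and h4).exists
  -- along the multiples of l
  have h5 : Tendsto (fun k : ℕ => Real.log (W β (k * l) w 0) / ((k * l : ℕ) : ℝ)) atTop (nhds p) := by
    have h6 : Tendsto (fun k : ℕ => k * l) atTop atTop :=
      tendsto_id.atTop_mul_const' (by omega)
    exact hw1.comp h6
  refine le_of_tendsto h5 ?_
  filter_upwards [hw2, eventually_ge_atTop 1] with k hk hk1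
  have hk' : (0 : ℝ) < k := by exact_mod_cast hk1
  have h6 : √(W β (k * l) w 0) < Real.exp (-(k : ℝ) / 2) := by
    by_contra hc
    push Not at hc
    exact hk hc
  have hWp := Pool.Agent.H549.DP.W_pos β (k * l) w 0
  have h7 : Real.log (W β (k * l) w 0) ≤ -k := by
    have h8 := Real.log_lt_log (Real.sqrt_pos.2 hWp) h6
    rw [Real.log_exp, Real.log_sqrt hWp.le] at h8
    linarith
  rw [div_le_iff₀ (by push_cast; positivity)]
  push_cast
  have h8 : -(1 / (l : ℝ)) * (k * l) = -k := by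
    field_simp
  rw [h8]
  exact h7

theorem t_CSE : S_CSE := by
  intro hS hC
  obtain ⟨L₁, hL₁⟩ := sum_far
  refine ⟨max 72 L₁, le_trans (by norm_num) (le_max_left _ _), ?_⟩
  intro L hL γ h hg β l m hl hm hlm A hA hloc hPA hPW p hp
  have h72 : 72 ≤ L := (le_max_left _ _).trans hL
  have hL1 : L₁ ≤ L := (le_max_right _ _).trans hL
  have h1L : 1 ≤ L := by linarith
  have hκ0 : 0 < (L ^ 6)⁻¹ := by positivity
  have hκ1 : (L ^ 6)⁻¹ ≤ 1 := inv_le_one_of_one_le₀ (one_le_pow₀ h1L)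
  have hal0 : ∀ c, 0 ≤ al L c := by
    intro c
    unfold al
    split_ifs
    · positivity
    · exact (far_pos c).le
  have hco := hC γ h hg β l m hl hm A hA hloc ((L ^ 6)⁻¹) hκ0 hκ1 hPA (al L) hal0
    (fun c z hz => hyp hg hS hl hm hlm hA h1L hPW c z hz) (1 / 2) (sum_al h72 hL1 hL₁)
  exact bc hg hl hco hp

end Pool.Agent.H34.DP
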